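import Mathlib

/-!
# Rational subspaces of a complex vector space
-/

set_option autoImplicit false

namespace Pool.Agent.Helper40.TH

open Module TensorProduct

section

variable {A : Type*} [AddCommGroup A] [Module ℂ A] [Module ℚ A]

/-- the map `ℂ ⊗ V → A` -/
noncomputable def tau (V : Submodule ℚ A) : ℂ ⊗[ℚ] V →ₗ[ℂ] A :=
  LinearMap.liftBaseChange ℂ V.subtype

theorem tau_tmul (V : Submodule ℚ A) (c : ℂ) (v : V) : tau V (c ⊗ₜ v) = c • (v : A) := by
  simp [tau]

theorem range_tau (V : Submodule ℚ A) :
    LinearMap.range (tau V) = Submodule.span ℂ (V : Set A) := by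
  unfold tau
  rw [LinearMap.range_liftBaseChange]
  congr 1
  ext a
  simp

theorem tau_injective (V : Submodule ℚ A) [Module.Finite ℚ V]
    (h : finrank ℚ V = finrank ℂ (Submodule.span ℂ (V : Set A))) :
    Function.Injective (tau V) := by
  rw [← LinearMap.ker_eq_bot]
  have h1 := LinearMap.finrank_range_add_finrank_ker (tau V)
  rw [range_tau, ← h, Module.finrank_baseChange] at h1
  exact Submodule.finrank_eq_zero.1 (by omega)

end

section

variable {A B : Type*} [AddCommGroup A] [Module ℂ A] [Module ℚ A] [AddCommGroup B] [Module ℂ B]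
  [Module ℚ B]

/-- The complexification of the rational preimage is the preimage of the complexification. -/
theorem mem_span_comap (V : Submodule ℚ B) (W N : Submodule ℚ A) [Module.Finite ℚ W]
    (hW : finrank ℚ W = finrank ℂ (Submodule.span ℂ (W : Set A))) (m : B →ₗ[ℂ] A)
    (hm : ∀ b ∈ V, m b ∈ W) (hN : N ≤ W) {z : B} (hz : z ∈ Submodule.span ℂ (V : Set B))
    (hmz : m z ∈ Submodule.span ℂ (N : Set A)) :
    z ∈ Submodule.span ℂ ({b | b ∈ V ∧ m b ∈ N} : Set B) := by
  classical
  let m' : V →ₗ[ℚ] W := LinearMap.codRestrict W ((m.restrictScalars ℚ).domRestrict V)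
    (fun b => hm b.1 b.2)
  have hm' : ∀ v : V, ((m' v : W) : A) = m v := fun v => rfl
  rw [← range_tau] at hz hmz
  obtain ⟨t, rfl⟩ := hz
  obtain ⟨u, hu⟩ := hmz
  have e1 : ∀ t, m (tau V t) = tau W (m'.baseChange ℂ t) := by
    intro t
    induction t with
    | zero => simp
    | tmul c v => simp [tau_tmul, hm']
    | add x y hx hy => rw [map_add, map_add, hx, hy, map_add, map_add]
  have e2 : ∀ u, tau N u = tau W ((Submodule.inclusion hN).baseChange ℂ u) := by
    intro u
    induction u with
    | zero => simp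
    | tmul c v => simp [tau_tmul]
    | add x y hx hy => rw [map_add, hx, hy, map_add, map_add]
  rw [e1, e2] at hu
  have hu' := tau_injective W hW hu
  let q : W →ₗ[ℚ] W ⧸ (N.comap W.subtype) := (N.comap W.subtype).mkQ
  have e3 : (q ∘ₗ m').baseChange ℂ t = 0 := by
    rw [LinearMap.baseChange_comp, LinearMap.comp_apply, ← hu', ← LinearMap.comp_apply,
      ← LinearMap.baseChange_comp]
    have : q ∘ₗ Submodule.inclusion hN = 0 := by
      ext x
      simp [q]
    rw [this]
    simp
  have e4 : t ∈ LinearMap.range ((LinearMap.ker (q ∘ₗ m')).subtype.baseChange ℂ) := by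
    have h := Module.Flat.ker_lTensor_eq ℂ ℂ (q ∘ₗ m')
    have h2 : t ∈ LinearMap.ker (AlgebraTensorModule.lTensor ℂ ℂ (q ∘ₗ m')) := e3
    rw [h] at h2
    exact h2
  have e5 : ∀ s, tau V ((LinearMap.ker (q ∘ₗ m')).subtype.baseChange ℂ s) ∈
      Submodule.span ℂ ({b | b ∈ V ∧ m b ∈ N} : Set B) := by
    intro s
    induction s with
    | zero => simp
    | tmul c v =>
      rw [LinearMap.baseChange_tmul, tau_tmul]
      refine Submodule.smul_mem _ _ (Submodule.subset_span ?_)
      refine ⟨(v : V).2, ?_⟩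
      have h5 : q (m' v) = 0 := v.2
      have h6 := (Submodule.Quotient.mk_eq_zero _).1 h5
      exact h6
    | add x y hx hy =>
      rw [map_add, map_add]
      exact add_mem hx hy
  obtain ⟨s, rfl⟩ := e4
  exact e5 s

end

end Pool.Agent.Helper40.TH
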